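import Mathlib
import Pool.Agent.Helper9.NS
import Pool.Agent.Helper70.BQ.Defs
import Pool.Agent.Helper83.VF.Kill
import Pool.Agent.Helper94.VQ.MoveSum
import Pool.Agent.Helper94.VQ.Ops
import Pool.Agent.Helper94.VQ.Quot

/-!
# The decomposition of a function into components of given types (block A3)
-/

set_option autoImplicit false

namespace BQ

open VC VQ VP VF Function IntermediateField

universe u

namespace A3

/-- Operators in the single slots can be applied one after another. -/
theorem sum_pi {k M U : Type*} [CommRing k] [Fintype U] (r : U → M → M) (κ : U → k) :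
    ∀ {n : ℕ} (L : (Fin n → M) → k) (b : Fin n → M),
      (∀ (i : Fin n) (a : Fin n → M),
        ∑ u, κ u * L (update a i (r u (b i))) = L (update a i (b i))) →
      ∑ u : Fin n → U, (∏ i, κ (u i)) * L (fun i => r (u i) (b i)) = L b := by
  intro n
  induction n with
  | zero =>
    intro L b _
    rw [Fintype.sum_unique]
    simp only [Finset.univ_eq_empty, Finset.prod_empty, one_mul]
    congr 1
    exact Subsingleton.elim _ _
  | succ n ih =>
    intro L b H
    rw [← (Fin.consEquiv (fun _ : Fin (n + 1) => U)).sum_comp, Fintype.sum_prod_type]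
    have h1 : ∀ x : U, ∑ y : Fin n → U,
        (∏ i, κ ((Fin.consEquiv (fun _ : Fin (n + 1) => U)) (x, y) i)) *
          L (fun i => r ((Fin.consEquiv (fun _ : Fin (n + 1) => U)) (x, y) i) (b i)) =
        κ x * L (Fin.cons (r x (b 0)) (Fin.tail b)) := by
      intro x
      have h2 := ih (fun a => L (Fin.cons (r x (b 0)) a)) (Fin.tail b) (by
        intro i a
        have := H i.succ (Fin.cons (r x (b 0)) a)
        simp only [← Fin.cons_update] at this
        exact this)
      beta_reduce at h2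
      rw [← h2, Finset.mul_sum]
      apply Finset.sum_congr rfl
      intro y _
      rw [Fin.prod_univ_succ]
      simp only [Fin.consEquiv_apply, Fin.cons_zero, Fin.cons_succ]
      rw [mul_assoc]
      congr 3
      funext i
      refine Fin.cases ?_ (fun j => ?_) i
      · simp
      · simp [Fin.tail]
    rw [Finset.sum_congr rfl (fun x _ => h1 x)]
    have h3 := H 0 b
    rw [update_eq_self] at h3
    rw [← h3]
    apply Finset.sum_congr rfl
    intro x _
    congr 2
    funext i
    refine Fin.cases ?_ (fun j => ?_) i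
    · simp
    · simp [Fin.tail]

section group

variable {k : Type u} [Field k] [CharZero k] {Γ : Type*} [Group Γ] [Fintype Γ]

open Classical in
/-- The projector to a character of a subgroup and the induced character have the same values
on class functions. -/
theorem avg_class (W : Subgroup Γ) (χ : W →* kˣ) (J : Γ → k)
    (hJ : ∀ x g, J (x * g * x⁻¹) = J g) :
    ∑ g : Γ, (Nat.card W : k)⁻¹ * (if h : g ∈ W then (((χ ⟨g, h⟩)⁻¹ : kˣ) : k) else 0) * J g =
      (Fintype.card Γ : k)⁻¹ * ∑ g : Γ, indChar W χ g⁻¹ * J g := by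
  have h1 : ∑ g : Γ, indChar W χ g⁻¹ * J g =
      ∑ x : Γ, ∑ g : Γ, (Nat.card W : k)⁻¹ *
        (if h : g ∈ W then (((χ ⟨g, h⟩)⁻¹ : kˣ) : k) else 0) * J g := by
    unfold indChar
    simp only [Finset.mul_sum, Finset.sum_mul]
    rw [Finset.sum_comm]
    apply Finset.sum_congr rfl
    intro x _
    refine Fintype.sum_equiv (MulAut.conj x⁻¹).toEquiv _ _ (fun g => ?_)
    change _ = (Nat.card W : k)⁻¹ * (if h : x⁻¹ * g * x⁻¹⁻¹ ∈ W then
      (((χ ⟨_, h⟩)⁻¹ : kˣ) : k) else 0) * J (x⁻¹ * g * x⁻¹⁻¹)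
    rw [hJ]
    congr 2
    have e : x⁻¹ * g⁻¹ * x = (x⁻¹ * g * x⁻¹⁻¹)⁻¹ := by group
    by_cases h : x⁻¹ * g * x⁻¹⁻¹ ∈ W
    · have h' : x⁻¹ * g⁻¹ * x ∈ W := by rw [e]; exact W.inv_mem h
      rw [dif_pos h, dif_pos h']
      congr 1
      rw [← map_inv]
      congr 1
      exact Subtype.ext e
    · have h' : x⁻¹ * g⁻¹ * x ∉ W := by
        intro h2
        apply h
        rw [e] at h2
        have := W.inv_mem h2
        rwa [inv_inv] at this
      rw [dif_neg h, dif_neg h']
  rw [h1, Finset.sum_const, Finset.card_univ, nsmul_eq_mul, ← mul_assoc,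
    inv_mul_cancel₀ (by exact_mod_cast Fintype.card_ne_zero), one_mul]

end group

section curves

variable {k : Type u} [Field k] [IsAlgClosed k] [CharZero k]
  {F₁ F₂ : Type u} [Field F₁] [Algebra k F₁] [Field F₂] [Algebra k F₂]
  {V₁ : Subgroup (F₁ ≃ₐ[k] F₁)} {V₂ : Subgroup (F₂ ≃ₐ[k] F₂)}
  (h₁ : IsFunctionField k F₁) (h₂ : IsFunctionField k F₂) (G : Subgroup (V₁ × V₂))

omit [IsAlgClosed k] [CharZero k] in
theorem induced_fst (σ : F₁ ≃ₐ[k] F₁) (y : Place k F₂) :
    Induced (curve h₁) ((curve h₁).prod (curve h₂)) (fun x => (act h₁ σ x, y)) := by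
  intro K _ _ hK c
  refine ⟨(actM h₁ σ c, Sum.inl y), fun v => ?_⟩
  exact Prod.ext (eval_actM h₁ hK σ c v) rfl

omit [IsAlgClosed k] [CharZero k] in
theorem induced_snd (x : Place k F₁) :
    Induced (curve h₂) ((curve h₁).prod (curve h₂)) (fun y => (x, y)) := by
  intro K _ _ hK c
  exact ⟨(Sum.inl x, c), fun v => rfl⟩

omit [IsAlgClosed k] [CharZero k] in
theorem induced_const {X Y : Variety k} (hY : ∀ (K : Type u) [Field K] [Algebra k K]
    (hK : IsFunctionField k K) (p : Y.Pt), ∃ c : Y.Mor K, ∀ v, Y.eval hK c v = p) (p : Y.Pt) :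
    Induced X Y (fun _ => p) := by
  intro K _ _ hK c
  exact hY K hK p

theorem kills_snd {ψ : Place k F₁ × Place k F₂ → k}
    (h : Kills ((curve h₁).prod (curve h₂)) ψ) (x : Place k F₁)
    {b : ((curve h₁).prod (curve h₂)).Cycles}
    (hb : AlbaneseTrivial (curve h₁) (curve h₂) b) :
    Finsupp.linearCombination ℤ (fun p : Place k F₁ × Place k F₂ => ψ (x, p.2)) b = 0 := by
  have h1 : Kills (curve h₂) (fun y => ψ (x, y)) := h.comp (induced_snd h₁ h₂ x)
  have h2 := h1 _ hb.2
  rw [Finsupp.linearCombination_mapDomain] at h2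
  exact h2

theorem kills_fst {ψ : Place k F₁ × Place k F₂ → k}
    (h : Kills ((curve h₁).prod (curve h₂)) ψ) (σ : F₁ ≃ₐ[k] F₁) (y : Place k F₂)
    {b : ((curve h₁).prod (curve h₂)).Cycles}
    (hb : AlbaneseTrivial (curve h₁) (curve h₂) b) :
    Finsupp.linearCombination ℤ (fun p : Place k F₁ × Place k F₂ => ψ (act h₁ σ p.1, y)) b = 0 := by
  have h1 : Kills (curve h₁) (fun x => ψ (act h₁ σ x, y)) := h.comp (induced_fst h₁ h₂ σ y)
  have h2 := h1 _ hb.1
  rw [Finsupp.linearCombination_mapDomain] at h2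
  exact h2

/-- constant function -/
theorem kills_const {ψ : Place k F₁ × Place k F₂ → k}
    (h : Kills ((curve h₁).prod (curve h₂)) ψ) (q : Place k F₁ × Place k F₂)
    {b : ((curve h₁).prod (curve h₂)).Cycles}
    (hb : AlbaneseTrivial (curve h₁) (curve h₂) b) :
    Finsupp.linearCombination ℤ (fun _ : Place k F₁ × Place k F₂ => ψ q) b = 0 := by
  have h1 : Kills (curve h₂) (fun _ => ψ q) := h.comp (r := fun _ => q) (by
    intro K _ _ hK c
    exact ⟨(Sum.inl q.1, Sum.inl q.2), fun v => rfl⟩)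
  have h2 := h1 _ hb.2
  rw [Finsupp.linearCombination_mapDomain] at h2
  exact h2

end curves

section pr

variable {k : Type u} [Field k]
  {F₁ F₂ : Type u} [Field F₁] [Algebra k F₁] [Field F₂] [Algebra k F₂]
  {V₁ : Subgroup (F₁ ≃ₐ[k] F₁)} {V₂ : Subgroup (F₂ ≃ₐ[k] F₂)}

/-- The action on the first curve. -/
def pr (G : Subgroup (V₁ × V₂)) : G →* (F₁ ≃ₐ[k] F₁) :=
  V₁.subtype.comp ((MonoidHom.fst V₁ V₂).comp G.subtype)

end pr

section scalar

variable {k : Type u} [Field k] [IsAlgClosed k] [CharZero k]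
  {F₁ F₂ : Type u} [Field F₁] [Algebra k F₁] [Field F₂] [Algebra k F₂]
  {V₁ : Subgroup (F₁ ≃ₐ[k] F₁)} {V₂ : Subgroup (F₂ ≃ₐ[k] F₂)}
  (h₁ : IsFunctionField k F₁) (h₂ : IsFunctionField k F₂) (G : Subgroup (V₁ × V₂)) [Fintype G]
  {Λ : Type*} [Fintype Λ] (W : Λ → Subgroup G) (χ : ∀ l, W l →* kˣ)
  (o : Place k F₁ × Place k F₂)

omit [IsAlgClosed k] [CharZero k] [Fintype G] in
theorem act_conj (x g : G) (P : Place k F₁) :
    act h₁ (pr G x) (act h₁ (pr G (x * g * x⁻¹)) P) = act h₁ (pr G g) (act h₁ (pr G x) P) := by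
  rw [← act_mul, ← act_mul, ← map_mul, ← map_mul, inv_mul_cancel_right]

omit [IsAlgClosed k] [CharZero k] [Fintype G] in
theorem class_pt {θ : Place k F₁ × Place k F₂ → k}
    (hG : ∀ (g : G) (p : Place k F₁ × Place k F₂), θ (act2 h₁ h₂ V₁ V₂ g.1 p) = θ p)
    (x g : G) (p : Place k F₁ × Place k F₂) :
    θ (act h₁ (pr G (x * g * x⁻¹)) p.1, p.2) =
      θ (act h₁ (pr G g) (act h₁ (pr G x) p.1), act h₂ x.1.2.1 p.2) := by
  rw [← hG x (act h₁ (pr G (x * g * x⁻¹)) p.1, p.2)]
  congr 1
  exact Prod.ext (act_conj h₁ G x g p.1) rfl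

/-- The operator decomposes functions of one point. -/
theorem scalar
    (hreg : ∀ g : G, ∑ l, indChar (W l) (χ l) 1 * indChar (W l) (χ l) g =
      (open Classical in if g = 1 then (Fintype.card G : k) else 0))
    {θ : Place k F₁ × Place k F₂ → k}
    (hθ : Kills ((curve h₁).prod (curve h₂)) θ)
    (hG : ∀ (g : G) (p : Place k F₁ × Place k F₂), θ (act2 h₁ h₂ V₁ V₂ g.1 p) = θ p)
    (b : ((curve h₁).prod (curve h₂)).Cycles)
    (hb : AlbaneseTrivial (curve h₁) (curve h₂) b)
    (hbG : ∀ g : G, Finsupp.mapDomain (act2 h₁ h₂ V₁ V₂ g.1) b = b) :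
    ∑ u : G × Bool × Bool, (∑ l, indChar (W l) (χ l) 1 * kap G (W l) (χ l) u) *
      Finsupp.linearCombination ℤ (fun p => θ (rmap h₁ G o u p)) b =
      Finsupp.linearCombination ℤ θ b := by
  classical
  have hz : ∀ (g : G) (b1 b2 : Bool), (b1 || b2) = true →
      Finsupp.linearCombination ℤ (fun p => θ (rmap h₁ G o (g, b1, b2) p)) b = 0 := by
    intro g b1 b2 h12
    cases b1 <;> cases b2
    · exact absurd h12 (by simp)
    · exact kills_fst h₁ h₂ hθ g.1.1.1 o.2 hb
    · exact kills_snd h₁ h₂ hθ (act h₁ g.1.1.1 o.1) hb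
    · exact kills_const h₁ h₂ hθ (act h₁ g.1.1.1 o.1, o.2) hb
  obtain ⟨J, hJ⟩ : ∃ J : G → k, ∀ g, J g = Finsupp.linearCombination ℤ
    (fun p : Place k F₁ × Place k F₂ => θ (act h₁ (pr G g) p.1, p.2)) b := ⟨_, fun _ => rfl⟩
  have hclass : ∀ x g : G, J (x * g * x⁻¹) = J g := by
    intro x g
    have e1 : J g = Finsupp.linearCombination ℤ
        (fun p : Place k F₁ × Place k F₂ => θ (act h₁ (pr G g) p.1, p.2))
        (Finsupp.mapDomain (act2 h₁ h₂ V₁ V₂ x.1) b) := by rw [hbG, hJ]
    rw [e1, Finsupp.linearCombination_mapDomain, hJ]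
    have e2 : (fun p : Place k F₁ × Place k F₂ => θ (act h₁ (pr G (x * g * x⁻¹)) p.1, p.2)) =
        (fun p : Place k F₁ × Place k F₂ => θ (act h₁ (pr G g) p.1, p.2)) ∘
          act2 h₁ h₂ V₁ V₂ x.1 := funext (class_pt h₁ h₂ G hG x g)
    rw [e2]
  have hJ0 : ∀ g, Finsupp.linearCombination ℤ (fun p => θ (rmap h₁ G o (g, false, false) p)) b =
      J g := fun g => (hJ g).symm
  rw [Fintype.sum_prod_type]
  have h1 : ∀ g : G, ∑ y : Bool × Bool, (∑ l, indChar (W l) (χ l) 1 * kap G (W l) (χ l) (g, y)) *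
      Finsupp.linearCombination ℤ (fun p => θ (rmap h₁ G o (g, y) p)) b =
      ∑ l, indChar (W l) (χ l) 1 * ((Nat.card (W l) : k)⁻¹ *
        (if h : g ∈ W l then (((χ l ⟨g, h⟩)⁻¹ : kˣ) : k) else 0) * J g) := by
    intro g
    rw [Fintype.sum_prod_type, Fintype.sum_bool, Fintype.sum_bool, Fintype.sum_bool,
      hz g true true rfl, hz g true false rfl, hz g false true rfl, hJ0]
    simp only [mul_zero, zero_add, add_zero]
    rw [Finset.sum_mul]
    apply Finset.sum_congr rfl
    intro l _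
    rw [mul_assoc]
    congr 2
    unfold kap
    simp [sgn]
  rw [Finset.sum_congr rfl (fun g _ => h1 g), Finset.sum_comm]
  have h2 : ∀ l, ∑ g : G, indChar (W l) (χ l) 1 * ((Nat.card (W l) : k)⁻¹ *
        (if h : g ∈ W l then (((χ l ⟨g, h⟩)⁻¹ : kˣ) : k) else 0) * J g) =
      (Fintype.card G : k)⁻¹ * ∑ g : G, indChar (W l) (χ l) 1 * indChar (W l) (χ l) g⁻¹ * J g := by
    intro l
    rw [← Finset.mul_sum, avg_class (W l) (χ l) J hclass, ← mul_assoc,
      mul_comm (indChar (W l) (χ l) 1) _, mul_assoc, Finset.mul_sum]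
    simp only [mul_assoc]
  rw [Finset.sum_congr rfl (fun l _ => h2 l), ← Finset.mul_sum, Finset.sum_comm]
  have h3 : ∀ g : G, ∑ l, indChar (W l) (χ l) 1 * indChar (W l) (χ l) g⁻¹ * J g =
      if g = 1 then (Fintype.card G : k) * J g else 0 := by
    intro g
    rw [← Finset.sum_mul, hreg, ite_mul, zero_mul]
    simp only [inv_eq_one]
  rw [Finset.sum_congr rfl (fun g _ => h3 g), Finset.sum_ite_eq' Finset.univ (1 : G),
    if_pos (Finset.mem_univ _), ← mul_assoc,
    inv_mul_cancel₀ (by exact_mod_cast Fintype.card_ne_zero), one_mul, hJ]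
  have e3 : (fun p : Place k F₁ × Place k F₂ => θ (act h₁ (pr G 1) p.1, p.2)) = θ := by
    funext p
    rw [map_one, act_one]
  rw [e3]

end scalar

section slot

variable {α : Type u} {n : ℕ}

/-- Two combinations of exterior products with fixed factor in one slot agree if they agree when
the other factors are points. -/
theorem slot_ext {R : Type*} [CommRing R] {ι : Type*} [Fintype ι] (Φ : (Fin n → α) → R) (i : Fin n)
    (c : ι → R) (z : ι → (α →₀ ℤ)) (z₀ : α →₀ ℤ)
    (h : ∀ p : Fin n → α, ∑ u, c u * Finsupp.linearCombination ℤ (fun q => Φ (update p i q)) (z u) =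
      Finsupp.linearCombination ℤ (fun q => Φ (update p i q)) z₀) (o : α)
    (a : Fin n → (α →₀ ℤ)) :
    ∑ u, c u * Finsupp.linearCombination ℤ Φ (ext' (update a i (z u))) =
      Finsupp.linearCombination ℤ Φ (ext' (update a i z₀)) := by
  classical
  let L : MultilinearMap ℤ (fun _ : Fin n => (α →₀ ℤ)) R :=
    (Finsupp.linearCombination ℤ Φ).compMultilinearMap (extM α n)
  let f : (α →₀ ℤ) → ∀ _ : Fin n, (α →₀ ℤ) →ₗ[ℤ] (α →₀ ℤ) := fun w j =>
    if j = i then Finsupp.linearCombination ℤ (fun _ => w) else LinearMap.id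
  have hf : ∀ (w : α →₀ ℤ) (a : Fin n → (α →₀ ℤ)) (x : α), a i = Finsupp.single x 1 →
      (fun j => f w j (a j)) = update a i w := by
    intro w a x ha
    funext j
    by_cases hj : j = i
    · subst hj
      simp [f, ha]
    · simp [f, hj]
  have hL : ∑ u, c u • L.compLinearMap (f (z u)) = L.compLinearMap (f z₀) := by
    apply Module.Basis.ext_multilinear (fun _ => Finsupp.basisSingleOne)
    intro v
    simp only [Finsupp.coe_basisSingleOne]
    rw [sum_apply]
    have e : ∀ w : α →₀ ℤ, L.compLinearMap (f w) (fun j => Finsupp.single (v j) (1 : ℤ)) =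
        Finsupp.linearCombination ℤ (fun q => Φ (update v i q)) w := by
      intro w
      rw [MultilinearMap.compLinearMap_apply, hf w _ (v i) rfl]
      change Finsupp.linearCombination ℤ Φ (ext' _) = _
      rw [ext'_update_single v i w _ (fun j hj => by rw [update_of_ne hj]) (by rw [update_self]),
        Finsupp.linearCombination_mapDomain]
      rfl
    rw [e z₀, ← h v]
    apply Finset.sum_congr rfl
    intro u _
    rw [smul_apply, e, smul_eq_mul]
  have h1 := congrArg (fun M => M (update a i (Finsupp.single o 1))) hL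
  beta_reduce at h1
  have e : ∀ w : α →₀ ℤ, L.compLinearMap (f w) (update a i (Finsupp.single o (1 : ℤ))) =
      Finsupp.linearCombination ℤ Φ (ext' (update a i w)) := by
    intro w
    rw [MultilinearMap.compLinearMap_apply, hf w _ o (by rw [update_self]), update_idem]
    rfl
  rw [e, sum_apply] at h1
  rw [← h1]
  apply Finset.sum_congr rfl
  intro u _
  rw [smul_apply, e, smul_eq_mul]

end slot

end A3

section A3
variable {k : Type u} [Field k] [IsAlgClosed k] [CharZero k]
  {F₁ F₂ : Type u} [Field F₁] [Algebra k F₁] [Field F₂] [Algebra k F₂]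
  {V₁ : Subgroup (F₁ ≃ₐ[k] F₁)} {V₂ : Subgroup (F₂ ≃ₐ[k] F₂)} [Finite V₁] [Finite V₂]
  (h₁ : IsFunctionField k F₁) (h₂ : IsFunctionField k F₂) (G : Subgroup (V₁ × V₂)) [Fintype G]
  {n : ℕ} {Λ : Type*} [Fintype Λ] (W : Λ → Subgroup G) (χ : ∀ l, W l →* kˣ)
  (o : Place k F₁ × Place k F₂) (Θ : (Fin n → Place k F₁ × Place k F₂) → k)

theorem lc_decomp
    (hreg : ∀ g : G, ∑ l, indChar (W l) (χ l) 1 * indChar (W l) (χ l) g =
      (open Classical in if g = 1 then (Fintype.card G : k) else 0))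
    (hΘ : Kills (((curve h₁).prod (curve h₂)).pow n) Θ)
    (hG : ∀ (i : Fin n) (g : G) (p : Fin n → Place k F₁ × Place k F₂),
      Θ (update p i (act2 h₁ h₂ V₁ V₂ g.1 (p i))) = Θ p)
    (b : Fin n → ((curve h₁).prod (curve h₂)).Cycles)
    (hb : ∀ i, AlbaneseTrivial (curve h₁) (curve h₂) (b i))
    (hbG : ∀ i, ∀ g : G, Finsupp.mapDomain (act2 h₁ h₂ V₁ V₂ g.1) (b i) = b i) :
    Finsupp.linearCombination ℤ Θ (ext' b) = ∑ c : Fin n → Λ,
      (∏ i, indChar (W (c i)) (χ (c i)) 1) *
        Finsupp.linearCombination ℤ (comp h₁ G W χ o Θ c) (ext' b) := by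
  classical
  set κ : G × Bool × Bool → k := fun u => ∑ l, indChar (W l) (χ l) 1 * kap G (W l) (χ l) u with hκ
  -- the combination in one slot
  have H : ∀ (i : Fin n) (a : Fin n → ((curve h₁).prod (curve h₂)).Cycles),
      ∑ u, κ u * Finsupp.linearCombination ℤ Θ
        (ext' (update a i (Finsupp.mapDomain (rmap h₁ G o u) (b i)))) =
        Finsupp.linearCombination ℤ Θ (ext' (update a i (b i))) := by
    intro i a
    refine A3.slot_ext Θ i κ (fun u => Finsupp.mapDomain (rmap h₁ G o u) (b i)) (b i) ?_ o a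
    intro p
    have hind : Induced ((curve h₁).prod (curve h₂)) (((curve h₁).prod (curve h₂)).pow n)
        (fun q => update p i q) := by
      refine induced_update ((curve h₁).prod (curve h₂)) p ?_ i
      intro K _ _ hK q
      exact ⟨(Sum.inl q.1, Sum.inl q.2), fun v => rfl⟩
    have hk : Kills ((curve h₁).prod (curve h₂)) (fun q => Θ (update p i q)) := hΘ.comp hind
    have hinv : ∀ (g : G) (q : Place k F₁ × Place k F₂),
        (fun q => Θ (update p i q)) (act2 h₁ h₂ V₁ V₂ g.1 q) = (fun q => Θ (update p i q)) q := by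
      intro g q
      beta_reduce
      have := hG i g (update p i q)
      rwa [update_self, update_idem] at this
    have h1 := A3.scalar h₁ h₂ G W χ o hreg hk hinv (b i) (hb i) (hbG i)
    rw [← h1]
    apply Finset.sum_congr rfl
    intro u _
    rw [Finsupp.linearCombination_mapDomain]
    rfl
  have h1 := A3.sum_pi (fun u z => Finsupp.mapDomain (rmap h₁ G o u) z) κ
    (fun a => Finsupp.linearCombination ℤ Θ (ext' a)) b H
  beta_reduce at h1
  rw [← h1]
  have h2 : ∀ c : Fin n → Λ, Finsupp.linearCombination ℤ (comp h₁ G W χ o Θ c) (ext' b) =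
      ∑ u : Fin n → G × Bool × Bool, (∏ i, kap G (W (c i)) (χ (c i)) (u i)) *
        Finsupp.linearCombination ℤ Θ
          (ext' (fun i => Finsupp.mapDomain (rmap h₁ G o (u i)) (b i))) := by
    intro c
    have h3 : ∀ z : (Fin n → Place k F₁ × Place k F₂) →₀ ℤ,
        Finsupp.linearCombination ℤ (comp h₁ G W χ o Θ c) z =
        ∑ u : Fin n → G × Bool × Bool, (∏ i, kap G (W (c i)) (χ (c i)) (u i)) *
          Finsupp.linearCombination ℤ (fun p => Θ (fun i => rmap h₁ G o (u i) (p i))) z := by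
      intro z
      induction z using Finsupp.induction_linear with
      | zero => simp
      | add z w hz hw => simp only [map_add, hz, hw, mul_add, Finset.sum_add_distrib]
      | single p m =>
        simp only [Finsupp.linearCombination_single, comp, Finset.smul_sum, mul_smul_comm]
    rw [h3]
    apply Finset.sum_congr rfl
    intro u _
    congr 1
    rw [← mapDomain_ext'', Finsupp.linearCombination_mapDomain]
    rfl
  simp only [h2, Finset.mul_sum]
  rw [Finset.sum_comm]
  apply Finset.sum_congr rfl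
  intro u _
  rw [hκ]
  beta_reduce
  rw [Finset.prod_univ_sum, Fintype.piFinset_univ, Finset.sum_mul]
  apply Finset.sum_congr rfl
  intro c _
  rw [Finset.prod_mul_distrib, mul_assoc]

end A3

end BQ
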